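import Mathlib
import Pool.Agent.H93.Cov2

namespace Pool.Agent.Results.MP_73700b_an.Cover

theorem result : ∃ (X : Type) (_ : NormedAddCommGroup X) (_ : NormedSpace ℝ X),
    Nonempty (X ≃L[ℝ] lp (fun _ : ℕ => ℝ) 2) ∧ CompleteSpace X ∧ ¬ FiniteDimensional ℝ X ∧
    Function.Surjective (NormedSpace.inclusionInDoubleDual ℝ X) ∧
    ∃ S : Set (X × ℝ), (∀ q ∈ S, 0 < q.2) ∧ (∀ x, ∃ q ∈ S, x ∈ Metric.closedBall q.1 q.2) ∧
      ∀ x, {q ∈ S | x ∈ Metric.closedBall q.1 q.2}.Finite :=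
  Pool.Agent.H93.Cov.main

end Pool.Agent.Results.MP_73700b_an.Cover
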